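import Pool.Agent.H18.CGR.Stmts

/-! Board cgr (helper18, MP_286349_an), row IOT: the law of `y + S`. -/

set_option autoImplicit false

noncomputable section

namespace Pool.CGR

/-- creation of the letter `b` -/
def iotC {m : ℕ} (b : Fin m ⊕ Fin m) :
    (List (Fin m ⊕ Fin m) →₀ ℂ) →ₗ[ℂ] (List (Fin m ⊕ Fin m) →₀ ℂ) :=
  Finsupp.linearCombination ℂ fun u => Finsupp.single (b :: u) (1 : ℂ)

/-- annihilation, with a prefix -/
def iotA {m : ℕ} (k : Fin m → List (Fin m) → ℂ) (b : Fin m ⊕ Fin m) (p : List (Fin m ⊕ Fin m)) :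
    (List (Fin m ⊕ Fin m) →₀ ℂ) →ₗ[ℂ] (List (Fin m ⊕ Fin m) →₀ ℂ) :=
  Finsupp.linearCombination ℂ fun u => ∑ n ∈ Finset.range (u.length + 1),
    Finsupp.single (u.drop n) (kz k b (p ++ u.take n))

theorem iotC_single {m : ℕ} (b : Fin m ⊕ Fin m) (u : List (Fin m ⊕ Fin m)) :
    iotC b (Finsupp.single u 1) = Finsupp.single (b :: u) 1 := by
  simp [iotC]

theorem iotA_single {m : ℕ} (k : Fin m → List (Fin m) → ℂ) (b : Fin m ⊕ Fin m)
    (p u : List (Fin m ⊕ Fin m)) :
    iotA k b p (Finsupp.single u 1) = ∑ n ∈ Finset.range (u.length + 1),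
      Finsupp.single (u.drop n) (kz k b (p ++ u.take n)) := by
  simp [iotA]

/-- two linear maps that agree on the words are equal -/
theorem iot_ext {α β : Type} {f g : (List α →₀ ℂ) →ₗ[ℂ] (List β →₀ ℂ)}
    (h : ∀ u, f (Finsupp.single u 1) = g (Finsupp.single u 1)) : f = g :=
  Finsupp.lhom_ext' fun u => LinearMap.ext_ring (h u)

theorem iot_T {m : ℕ} (k : Fin m → List (Fin m) → ℂ) (b : Fin m ⊕ Fin m) :
    T (kz k) b = iotC b + iotA k b [] := by
  apply iot_ext
  intro u
  rw [T_single, LinearMap.add_apply, iotC_single, iotA_single]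
  simp only [List.nil_append]

/-- the sum over all labellings -/
def iotw {m : ℕ} : List (Fin m) → (List (Fin m ⊕ Fin m) →₀ ℂ)
  | [] => Finsupp.single [] 1
  | a :: u => iotC (Sum.inl a) (iotw u) + iotC (Sum.inr a) (iotw u)

theorem iot_kz_inl {m : ℕ} (k : Fin m → List (Fin m) → ℂ) (j : Fin m) (q : List (Fin m)) :
    kz k (Sum.inl j) (q.map Sum.inl) = k j q := by
  have h : yl (q.map (Sum.inl : Fin m → Fin m ⊕ Fin m)) = q := by
    unfold yl
    induction q with
    | nil => rfl
    | cons a q ih => simp [List.filterMap_cons, ih]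
  simp only [kz, h, if_true]

theorem iot_kz_inr {m : ℕ} (k : Fin m → List (Fin m) → ℂ) (j a : Fin m)
    (p z : List (Fin m ⊕ Fin m)) : kz k (Sum.inl j) (p ++ Sum.inr a :: z) = 0 := by
  simp only [kz]
  rw [if_neg]
  intro h
  have h1 : (Sum.inr a : Fin m ⊕ Fin m) ∈ p ++ Sum.inr a :: z := by simp
  rw [h] at h1
  simp at h1

theorem iotA_inl {m : ℕ} (k : Fin m → List (Fin m) → ℂ) (j a : Fin m)
    (p : List (Fin m ⊕ Fin m)) (f : List (Fin m ⊕ Fin m) →₀ ℂ) :
    iotA k (Sum.inl j) p (iotC (Sum.inl a) f) = kz k (Sum.inl j) p • iotC (Sum.inl a) f +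
      iotA k (Sum.inl j) (p ++ [Sum.inl a]) f := by
  have h : (iotA k (Sum.inl j) p).comp (iotC (Sum.inl a)) = kz k (Sum.inl j) p •
      iotC (Sum.inl a) + iotA k (Sum.inl j) (p ++ [Sum.inl a]) := by
    apply iot_ext
    intro u
    rw [LinearMap.comp_apply, iotC_single, iotA_single, LinearMap.add_apply, LinearMap.smul_apply,
      iotC_single, iotA_single, List.length_cons, Finset.sum_range_succ', add_comm]
    simp [List.append_assoc]
  exact LinearMap.congr_fun h f

theorem iotA_inr {m : ℕ} (k : Fin m → List (Fin m) → ℂ) (j a : Fin m)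
    (p : List (Fin m ⊕ Fin m)) (f : List (Fin m ⊕ Fin m) →₀ ℂ) :
    iotA k (Sum.inl j) p (iotC (Sum.inr a) f) = kz k (Sum.inl j) p • iotC (Sum.inr a) f := by
  have h : (iotA k (Sum.inl j) p).comp (iotC (Sum.inr a)) = kz k (Sum.inl j) p •
      iotC (Sum.inr a) := by
    apply iot_ext
    intro u
    rw [LinearMap.comp_apply, iotC_single, iotA_single, LinearMap.smul_apply,
      iotC_single, List.length_cons, Finset.sum_range_succ', Finset.sum_eq_zero, zero_add]
    · simp
    · intro n _
      rw [List.take_succ_cons, iot_kz_inr, Finsupp.single_zero]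
  exact LinearMap.congr_fun h f

theorem iotA_w {m : ℕ} (k : Fin m → List (Fin m) → ℂ) (j : Fin m) (u : List (Fin m)) :
    ∀ q : List (Fin m), iotA k (Sum.inl j) (q.map Sum.inl) (iotw u) =
      ∑ n ∈ Finset.range (u.length + 1), k j (q ++ u.take n) • iotw (u.drop n) := by
  induction u with
  | nil =>
    intro q
    rw [show iotw ([] : List (Fin m)) = Finsupp.single [] 1 from rfl, iotA_single]
    simp only [List.length_nil, zero_add, Finset.sum_range_one, List.take_nil, List.drop_nil,
      List.append_nil, iot_kz_inl]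
    rw [show iotw ([] : List (Fin m)) = Finsupp.single [] 1 from rfl, Finsupp.smul_single,
      smul_eq_mul, mul_one]
  | cons a u ih =>
    intro q
    have h := ih (q ++ [a])
    rw [List.map_append, List.map_cons, List.map_nil] at h
    have h5 : ∀ n ∈ Finset.range (u.length + 1),
        k j (q ++ (a :: u).take (n + 1)) • iotw ((a :: u).drop (n + 1)) =
          k j (q ++ [a] ++ u.take n) • iotw (u.drop n) := by
      intro n _
      rw [List.take_succ_cons, List.drop_succ_cons, List.append_assoc, List.singleton_append]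
    have h6 : ∑ n ∈ Finset.range ((a :: u).length + 1),
        k j (q ++ (a :: u).take n) • iotw ((a :: u).drop n) =
        (∑ n ∈ Finset.range (u.length + 1), k j (q ++ [a] ++ u.take n) • iotw (u.drop n)) +
          k j q • iotw (a :: u) := by
      rw [List.length_cons, Finset.sum_range_succ', Finset.sum_congr rfl h5, List.take_zero,
        List.drop_zero, List.append_nil]
    rw [h6, iotw, map_add, iotA_inl, iotA_inr, iot_kz_inl, h, smul_add]
    abel

theorem iotB_C {m : ℕ} (k : Fin m → List (Fin m) → ℂ) (j : Fin m) (b : Fin m ⊕ Fin m)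
    (f : List (Fin m ⊕ Fin m) →₀ ℂ) :
    iotA k (Sum.inr j) [] (iotC b f) = if b = Sum.inr j then f else 0 := by
  have h : (iotA k (Sum.inr j) []).comp (iotC b) = if b = Sum.inr j then LinearMap.id else 0 := by
    apply iot_ext
    intro u
    rw [LinearMap.comp_apply, iotC_single, iotA_single, List.length_cons, Finset.sum_range_succ',
      Finset.sum_range_succ']
    have h0 : kz k (Sum.inr j) [] = 0 := by simp [kz]
    have h1 : ∀ n ∈ Finset.range u.length,
        Finsupp.single ((b :: u).drop (n + 1 + 1)) (kz k (Sum.inr j) ([] ++ (b :: u).take (n + 1 + 1)))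
          = (0 : List (Fin m ⊕ Fin m) →₀ ℂ) := by
      intro n hn
      have hn' := Finset.mem_range.1 hn
      have h2 : kz k (Sum.inr j) ([] ++ (b :: u).take (n + 1 + 1)) = 0 := by
        simp only [kz]
        rw [if_neg]
        intro h3
        have h4 := congrArg List.length h3
        simp only [List.nil_append, List.length_take, List.length_cons, List.length_nil] at h4
        omega
      rw [h2, Finsupp.single_zero]
    rw [Finset.sum_eq_zero h1, zero_add]
    by_cases hb : b = Sum.inr j
    · rw [if_pos hb, hb]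
      simp [kz]
    · rw [if_neg hb]
      have : kz k (Sum.inr j) [b] = 0 := by
        simp only [kz]
        rw [if_neg]
        simpa using hb
      simp [this, h0]
  have h' := LinearMap.congr_fun h f
  rw [LinearMap.comp_apply] at h'
  rw [h']
  split_ifs <;> rfl

theorem iotB_w {m : ℕ} (k : Fin m → List (Fin m) → ℂ) (j : Fin m) (u : List (Fin m)) :
    iotA k (Sum.inr j) [] (iotw u) =
      ∑ n ∈ Finset.range (u.length + 1), (if u.take n = [j] then (1 : ℂ) else 0) •
        iotw (u.drop n) := by
  cases u with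
  | nil =>
    rw [iotw, iotA_single]
    simp [kz]
  | cons a u =>
    rw [iotw, map_add, iotB_C, iotB_C, if_neg (by simp), zero_add, List.length_cons,
      Finset.sum_range_succ', Finset.sum_range_succ']
    have h1 : ∀ n ∈ Finset.range u.length,
        (if (a :: u).take (n + 1 + 1) = [j] then (1 : ℂ) else 0) • iotw ((a :: u).drop (n + 1 + 1))
          = 0 := by
      intro n hn
      have hn' := Finset.mem_range.1 hn
      rw [if_neg, zero_smul]
      intro h3
      have h4 := congrArg List.length h3
      simp only [List.length_take, List.length_cons, List.length_nil] at h4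
      omega
    rw [Finset.sum_eq_zero h1]
    by_cases ha : a = j
    · subst ha
      simp
    · simp [ha]

/-- the embedding -/
def iotE {m : ℕ} : (List (Fin m) →₀ ℂ) →ₗ[ℂ] (List (Fin m ⊕ Fin m) →₀ ℂ) :=
  Finsupp.linearCombination ℂ iotw

theorem iotE_single {m : ℕ} (u : List (Fin m)) (c : ℂ) :
    iotE (Finsupp.single u c) = c • iotw u := by
  simp [iotE]

theorem iot_step {m : ℕ} (k : Fin m → List (Fin m) → ℂ) (j : Fin m) (f : List (Fin m) →₀ ℂ) :
    (T (kz k) (Sum.inl j) + T (kz k) (Sum.inr j)) (iotE f) = iotE (T (kx k) j f) := by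
  have h : (T (kz k) (Sum.inl j) + T (kz k) (Sum.inr j)).comp iotE = iotE.comp (T (kx k) j) := by
    apply iot_ext
    intro u
    rw [LinearMap.comp_apply, LinearMap.comp_apply, iotE_single, one_smul, T_single, map_add,
      map_sum, LinearMap.add_apply, iot_T, iot_T, LinearMap.add_apply, LinearMap.add_apply,
      iotE_single, one_smul, iotw]
    have hA := iotA_w k j u []
    rw [List.map_nil] at hA
    rw [hA, iotB_w]
    have h2 : ∀ n ∈ Finset.range (u.length + 1), iotE (Finsupp.single (u.drop n)
        (kx k j (u.take n))) = k j ([] ++ u.take n) • iotw (u.drop n) +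
        (if u.take n = [j] then (1 : ℂ) else 0) • iotw (u.drop n) := by
      intro n _
      rw [iotE_single, kx, add_smul, List.nil_append]
    rw [Finset.sum_congr rfl h2, Finset.sum_add_distrib]
    abel
  exact LinearMap.congr_fun h f

/-- the product of the operators -/
def iotX {m : ℕ} (k : Fin m → List (Fin m) → ℂ) : List (Fin m) →
    ((List (Fin m ⊕ Fin m) →₀ ℂ) →ₗ[ℂ] (List (Fin m ⊕ Fin m) →₀ ℂ))
  | [] => LinearMap.id
  | a :: w => (iotX k w).comp (T (kz k) (Sum.inl a) + T (kz k) (Sum.inr a))

theorem iotX_E {m : ℕ} (k : Fin m → List (Fin m) → ℂ) (w : List (Fin m)) :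
    ∀ f : List (Fin m) →₀ ℂ, iotX k w (iotE f) = iotE (w.foldl (fun f j => T (kx k) j f) f) := by
  induction w with
  | nil => intro f; rfl
  | cons a w ih =>
    intro f
    rw [iotX, LinearMap.comp_apply, iot_step, ih]
    rfl

theorem iotw_nil {m : ℕ} (u : List (Fin m)) : iotw u [] = if u = [] then 1 else 0 := by
  have hC : ∀ (b : Fin m ⊕ Fin m) (f : List (Fin m ⊕ Fin m) →₀ ℂ), iotC b f [] = 0 := by
    intro b f
    induction f using Finsupp.induction_linear with
    | zero => simp
    | add f g hf hg => rw [map_add, Finsupp.add_apply, hf, hg, add_zero]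
    | single u c =>
      have h : (Finsupp.single u c : List (Fin m ⊕ Fin m) →₀ ℂ) = c • Finsupp.single u 1 := by
        rw [Finsupp.smul_single, smul_eq_mul, mul_one]
      rw [h, map_smul, iotC_single, Finsupp.smul_apply, Finsupp.single_apply, if_neg (by simp),
        smul_zero]
  cases u with
  | nil => simp [iotw]
  | cons a u =>
    rw [iotw, Finsupp.add_apply, hC, hC, if_neg (by simp), add_zero]

theorem iotE_nil {m : ℕ} (f : List (Fin m) →₀ ℂ) : iotE f [] = f [] := by
  induction f using Finsupp.induction_linear with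
  | zero => simp
  | add f g hf hg => rw [map_add, Finsupp.add_apply, Finsupp.add_apply, hf, hg]
  | single u c =>
    rw [iotE_single, Finsupp.smul_apply, iotw_nil, Finsupp.single_apply, smul_eq_mul]
    split_ifs <;> simp

theorem iot_thm : IOTStmt := by
  intro m k A _ _ τ y S hτ w
  have key : ∀ (w : List (Fin m)) (p : List (Fin m ⊕ Fin m)),
      τ (ev (Sum.elim y S) p * ev (fun i => y i + S i) w) = iotX k w (nn (kz k) p) [] := by
    intro w
    induction w with
    | nil =>
      intro p
      have h1 : ev (fun i => y i + S i) [] = 1 := rfl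
      rw [h1, mul_one, hτ]
      rfl
    | cons a w ih =>
      intro p
      have h1 : ev (fun i => y i + S i) (a :: w) = (y a + S a) * ev (fun i => y i + S i) w := by
        simp [ev]
      have h2 : ∀ b : Fin m ⊕ Fin m, ev (Sum.elim y S) (p ++ [b]) =
          ev (Sum.elim y S) p * Sum.elim y S b := by
        intro b
        simp [ev]
      have h3 := ih (p ++ [Sum.inl a])
      have h4 := ih (p ++ [Sum.inr a])
      rw [h2, nn_append] at h3 h4
      rw [h1, iotX, LinearMap.comp_apply, LinearMap.add_apply, map_add, Finsupp.add_apply, ← h3,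
        ← h4, ← map_add]
      congr 1
      simp only [Sum.elim_inl, Sum.elim_inr]
      noncomm_ring
  have h := key w []
  have h1 : ev (Sum.elim y S) [] = 1 := rfl
  rw [h1, one_mul, nn_nil] at h
  have h2 : (Finsupp.single [] 1 : List (Fin m ⊕ Fin m) →₀ ℂ) = iotE (Finsupp.single [] 1) := by
    rw [iotE_single, one_smul, iotw]
  rw [h, h2, iotX_E, iotE_nil]
  rfl

end Pool.CGR
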